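import Pool.Agent.helper22.GS.Spec

/-!
# Project gs (MP_561ff4_al), module MXA: the standard form is alternating and nondegenerate
-/

set_option autoImplicit false

namespace Pool.Agent.GS

open Module

theorem MXA_apply (n : ℕ) (F : Type) [Field F] (u v : Fin n ⊕ Fin n → F) :
    BJ n F u v = ∑ i, (u (Sum.inr i) * v (Sum.inl i) - u (Sum.inl i) * v (Sum.inr i)) := by
  have h1 : ∀ i j : Fin n, Matrix.J (Fin n) F (Sum.inl i) (Sum.inl j) = 0 := fun i j => rfl
  have h2 : ∀ i j : Fin n, Matrix.J (Fin n) F (Sum.inl i) (Sum.inr j) =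
      -((1 : Matrix (Fin n) (Fin n) F) i j) := fun i j => rfl
  have h3 : ∀ i j : Fin n, Matrix.J (Fin n) F (Sum.inr i) (Sum.inl j) =
      (1 : Matrix (Fin n) (Fin n) F) i j := fun i j => rfl
  have h4 : ∀ i j : Fin n, Matrix.J (Fin n) F (Sum.inr i) (Sum.inr j) = 0 := fun i j => rfl
  rw [BJ, Matrix.toBilin'_apply, Fintype.sum_sum_type]
  simp only [Fintype.sum_sum_type, h1, h2, h3, h4, Matrix.one_apply, mul_zero, zero_mul, mul_neg,
    neg_mul, mul_ite, ite_mul, mul_one, Finset.sum_const_zero, zero_add, add_zero,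
    Finset.sum_neg_distrib, Finset.sum_ite_eq, Finset.mem_univ, if_true, Finset.sum_sub_distrib]
  ring

theorem MXA : MXA_stmt := by
  intro n F _
  refine ⟨⟨fun v => ?_, fun u hu => ?_⟩, ?_⟩
  · rw [MXA_apply]
    refine Finset.sum_eq_zero fun i _ => ?_
    ring
  · funext s
    rcases s with i | i
    · have h := hu (Pi.single (Sum.inr i) 1)
      rw [MXA_apply, Finset.sum_eq_single i] at h
      · rw [Pi.single_eq_same, Pi.single_eq_of_ne (by simp), mul_zero, mul_one, zero_sub,
          neg_eq_zero] at h
        exact h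
      · intro j _ hj
        rw [Pi.single_eq_of_ne (by simp), Pi.single_eq_of_ne (by simpa using hj), mul_zero,
          mul_zero, sub_zero]
      · intro h1
        exact absurd (Finset.mem_univ i) h1
    · have h := hu (Pi.single (Sum.inl i) 1)
      rw [MXA_apply, Finset.sum_eq_single i] at h
      · rw [Pi.single_eq_same, Pi.single_eq_of_ne (by simp), mul_zero, mul_one, sub_zero] at h
        exact h
      · intro j _ hj
        rw [Pi.single_eq_of_ne (by simpa using hj), Pi.single_eq_of_ne (by simp), mul_zero,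
          mul_zero, sub_zero]
      · intro h1
        exact absurd (Finset.mem_univ i) h1
  · rw [Module.finrank_fintype_fun_eq_card, Fintype.card_sum, Fintype.card_fin]
    ring

end Pool.Agent.GS
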